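import Pool.Agent.Helper40.DZ.Stmts

/-!
Moebius disjointness of compact group extensions with Riemann integrable cocycles:
module XGR3 (skew products with values in a closed subgroup).
-/

open Finset Filter MeasureTheory Topology
open scoped ComplexConjugate InnerProductSpace

namespace Pool.Agent.Helper40.DZ

open Pool.Agent.Helper16.AZ (T E Op mm)
open Pool.Agent.Helper16.MD (MS)

theorem xgr3_iterate {r : ℕ} {d : ℕ → ℕ} (G : Subgroup (UU d)) (S : T r → T r)
    (Φ : T r → G) (Φ1 : T r → UU d) (hΦ : ∀ θ, Φ1 θ = (Φ θ : UU d)) (n : ℕ) (y : T r × G) :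
    (SK3 S Φ1)^[n] (y.1, (y.2 : UU d)) =
      (((SKG3 G S Φ)^[n] y).1, (((SKG3 G S Φ)^[n] y).2 : UU d)) := by
  induction n generalizing y with
  | zero => rfl
  | succ n ih =>
    rw [Function.iterate_succ_apply, Function.iterate_succ_apply, ← ih (SKG3 G S Φ y)]
    have h : SK3 S Φ1 (y.1, (y.2 : UU d)) =
        ((SKG3 G S Φ y).1, ((SKG3 G S Φ y).2 : UU d)) := by
      simp only [SK3, SKG3, hΦ, Subgroup.coe_mul]
    rw [h]

theorem st_XGR3 (h1 : ST_XTH3) : ST_XGR3 := by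
  intro r d G S Φ hG hS hΦc F y
  let Φ1 : T r → UU d := fun θ => (Φ θ : UU d)
  have hΦ : ∀ θ, Φ1 θ = (Φ θ : UU d) := fun θ => rfl
  have hc : ∀ᵐ x ∂(mm r), ContinuousAt Φ1 x := by
    filter_upwards [hΦc] with x hx
    exact continuous_subtype_val.continuousAt.comp hx
  have hemb : IsClosedEmbedding (fun y : T r × G => ((y.1, (y.2 : UU d)) : T r × UU d)) :=
    (IsClosedEmbedding.id (X := T r)).prodMap hG.isClosedEmbedding_subtypeVal
  obtain ⟨F1, hF1⟩ := F.exists_extension' hemb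
  have h2 := h1 r d S Φ1 hS hc F1 (y.1, (y.2 : UU d))
  have h3 : ∀ n, F1 ((SK3 S Φ1)^[n] (y.1, (y.2 : UU d))) = F ((SKG3 G S Φ)^[n] y) := by
    intro n
    rw [xgr3_iterate G S Φ Φ1 hΦ n y]
    exact congrFun hF1 ((SKG3 G S Φ)^[n] y)
  simp only [h3] at h2
  exact h2

end Pool.Agent.Helper40.DZ
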