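import Pool.Agent.Helper40.DZ.Stmts2
import Pool.Agent.Helper93.DZ.XGR3

/-!
Moebius disjointness of compact group extensions: module XGR4 (skew products with values in a
closed subgroup, arbitrary measure).
-/

open Finset Filter MeasureTheory Topology
open scoped ComplexConjugate InnerProductSpace

namespace Pool.Agent.Helper40.DZ

open Pool.Agent.Helper16.AZ (T E Op mm)
open Pool.Agent.Helper16.MD (MS)

theorem st_XGR4 (h1 : ST_XTH4) : ST_XGR4 := by
  intro r d ν G S Φ hG hS hΦc F y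
  let Φ1 : T r → UU d := fun θ => (Φ θ : UU d)
  have hΦ : ∀ θ, Φ1 θ = (Φ θ : UU d) := fun θ => rfl
  have hc : ∀ᵐ x ∂ν, ContinuousAt Φ1 x := by
    filter_upwards [hΦc] with x hx
    exact continuous_subtype_val.continuousAt.comp hx
  have hemb : IsClosedEmbedding (fun y : T r × G => ((y.1, (y.2 : UU d)) : T r × UU d)) :=
    (IsClosedEmbedding.id (X := T r)).prodMap hG.isClosedEmbedding_subtypeVal
  obtain ⟨F1, hF1⟩ := F.exists_extension' hemb
  have h2 := h1 r d ν S Φ1 hS hc F1 (y.1, (y.2 : UU d))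
  have h3 : ∀ n, F1 ((SK3 S Φ1)^[n] (y.1, (y.2 : UU d))) = F ((SKG3 G S Φ)^[n] y) := by
    intro n
    rw [xgr3_iterate G S Φ Φ1 hΦ n y]
    exact congrFun hF1 ((SKG3 G S Φ)^[n] y)
  simp only [h3] at h2
  exact h2

end Pool.Agent.Helper40.DZ
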